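import Pool.Agent.Lib.MP_a60258_s6.Iface

/-!
# Module EXA: expansion of the values of `val` in complete graphs
-/

set_option autoImplicit false

open MvPolynomial Finset

namespace A602.S6.H54

section
variable {V : Type} [Fintype V] [DecidableEq V] {S : Finset ℕ}

lemma val_over (v : V) : ∀ (l : List (V × V)) {d : V → ℕ} {Q : V → R}
    (_ : ∀ u, Cha S (d u) (Q u)),
    d v < l.countP (fun e => decide (v = e.1 ∨ v = e.2)) → val S l Q = 0
  | [], d, Q, _, h => by simp at h
  | e :: l, d, Q, hQ, h => by
      simp only [val]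
      refine Finset.sum_eq_zero fun j _ => ?_
      by_cases hv : v = e.1 ∨ v = e.2
      · rw [List.countP_cons_of_pos (by simpa using hv)] at h
        by_cases hd : d v = 0
        · refine val_zero l v ?_
          have h2 := hQ v
          rw [hd] at h2
          obtain ⟨c, hc⟩ := h2
          simp only [dE, if_pos hv, hc, pderiv_C]
        · refine val_over v l (cha_dE hQ e j) ?_
          rw [if_pos hv]
          omega
      · rw [List.countP_cons_of_neg (by simpa using hv)] at h
        refine val_over v l (cha_dE hQ e j) ?_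
        rw [if_neg hv]
        exact h

lemma rem_eq (v : V) : ∀ (l : List (V × V)) (d : V → ℕ),
    rem l d v = d v - l.countP (fun e => decide (v = e.1 ∨ v = e.2))
  | [], d => by simp [rem]
  | e :: l, d => by
      rw [rem, rem_eq v l]
      by_cases hv : v = e.1 ∨ v = e.2
      · rw [List.countP_cons_of_pos (by simpa using hv), if_pos hv]
        omega
      · rw [List.countP_cons_of_neg (by simpa using hv), if_neg hv]
end

lemma countP_ms (x : Pr → ℕ) (v : Fin 6) :
    (ms ends x).toList.countP (fun e => decide (v = e.1 ∨ v = e.2)) = deg x v := by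
  have h1 : (ms ends x).toList.countP (fun e => decide (v = e.1 ∨ v = e.2))
      = Multiset.countP (fun e : Fin 6 × Fin 6 => v = e.1 ∨ v = e.2) (ms ends x) := by
    conv_rhs => rw [← Multiset.coe_toList (ms ends x)]
    rw [Multiset.coe_countP]
  rw [h1]
  unfold ms deg
  rw [← Multiset.coe_countPAddMonoidHom, map_sum]
  refine Finset.sum_congr rfl fun a _ => ?_
  rw [map_nsmul, Multiset.coe_countPAddMonoidHom, ← Multiset.cons_zero, smul_eq_mul]
  by_cases h : v = (ends a).1 ∨ v = (ends a).2
  · rw [Multiset.countP_cons_of_pos (p := fun e : Fin 6 × Fin 6 => v = e.1 ∨ v = e.2) _ h,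
      Multiset.countP_zero, if_pos h, zero_add, mul_one]
  · rw [Multiset.countP_cons_of_neg (p := fun e : Fin 6 × Fin 6 => v = e.1 ∨ v = e.2) _ h,
      Multiset.countP_zero, if_neg h, mul_zero]

lemma card_ends : ∀ e : Pr,
    (Finset.univ.filter fun v : Fin 6 => v = (ends e).1 ∨ v = (ends e).2).card = 2 := by
  decide

lemma sum_deg (x : Pr → ℕ) : ∑ v, deg x v = 2 * ∑ e, x e := by
  unfold deg
  rw [Finset.sum_comm, Finset.mul_sum]
  refine Finset.sum_congr rfl fun e _ => ?_
  rw [← Finset.sum_filter, Finset.sum_const, card_ends, smul_eq_mul]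

lemma sum_pairs (f : Fin 6 → Fin 6 → ℝ) (hf : ∀ u w, f u w = f w u) :
    ∑ u, ∑ w ∈ Finset.univ.erase u, f u w = 2 * ∑ e : Pr, f (ends e).1 (ends e).2 := by
  have h1 : ∀ u : Fin 6, ∑ w ∈ Finset.univ.erase u, f u w = ∑ w, f u w - f u u := fun u =>
    Finset.sum_erase_eq_sub (Finset.mem_univ u)
  have e10 : ends (.inl 0) = (0, 1) := by decide
  have e11 : ends (.inl 1) = (0, 2) := by decide
  have e12 : ends (.inl 2) = (1, 2) := by decide
  have e20 : ends (.inr (.inl 0)) = (3, 4) := by decide
  have e21 : ends (.inr (.inl 1)) = (3, 5) := by decide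
  have e22 : ends (.inr (.inl 2)) = (4, 5) := by decide
  have e300 : ends (.inr (.inr (0, 0))) = (0, 3) := by decide
  have e301 : ends (.inr (.inr (0, 1))) = (0, 4) := by decide
  have e302 : ends (.inr (.inr (0, 2))) = (0, 5) := by decide
  have e310 : ends (.inr (.inr (1, 0))) = (1, 3) := by decide
  have e311 : ends (.inr (.inr (1, 1))) = (1, 4) := by decide
  have e312 : ends (.inr (.inr (1, 2))) = (1, 5) := by decide
  have e320 : ends (.inr (.inr (2, 0))) = (2, 3) := by decide
  have e321 : ends (.inr (.inr (2, 1))) = (2, 4) := by decide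
  have e322 : ends (.inr (.inr (2, 2))) = (2, 5) := by decide
  simp only [h1, Fintype.sum_sum_type, Fintype.sum_prod_type, Fin.sum_univ_six,
    Fin.sum_univ_three, e10, e11, e12, e20, e21, e22, e300, e301, e302, e310, e311, e312, e320, e321, e322]
  linarith [hf 0 1, hf 0 2, hf 1 2, hf 3 4, hf 3 5, hf 4 5, hf 0 3, hf 0 4, hf 0 5, hf 1 3, hf 1 4, hf 1 5, hf 2 3, hf 2 4, hf 2 5]

lemma ms_single (x : Pr → ℕ) (e : Pr) :
    (ends e :: (ms ends x).toList).Perm (ms ends (x + Pi.single e 1)).toList := by
  rw [← Multiset.coe_eq_coe, ← Multiset.cons_coe, Multiset.coe_toList, Multiset.coe_toList]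
  unfold ms
  have h : ∀ a : Pr, (x + Pi.single e 1 : Pr → ℕ) a • ({ends a} : Multiset (Fin 6 × Fin 6)) =
      x a • ({ends a} : Multiset (Fin 6 × Fin 6)) +
        (if a = e then ({ends a} : Multiset (Fin 6 × Fin 6)) else 0) := by
    intro a
    rw [Pi.add_apply, add_nsmul, Pi.single_apply]
    split_ifs <;> simp
  rw [Finset.sum_congr rfl fun a _ => h a, Finset.sum_add_distrib, Finset.sum_ite_eq',
    if_pos (Finset.mem_univ e), add_comm, Multiset.singleton_add]

/-- one step of the expansion -/
lemma step {S : Finset ℕ} {p : ℕ} {P : R} (hP : Cha S p P) (x : Pr → ℕ) (k : ℕ)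
    (hk : k + ∑ e, x e = 3 * p) :
    (k : ℝ) * val S (ms ends x).toList (fun _ => P) =
      ∑ e, val S (ms ends (x + Pi.single e 1)).toList (fun _ => P) := by
  set l := (ms ends x).toList with hl
  have h1 : ∀ u : Fin 6, ((p : ℝ) - deg x u) * val S l (fun _ => P) =
      ∑ w ∈ Finset.univ.erase u, val S ((u, w) :: l) (fun _ => P) := by
    intro u
    have h2 := val_rule l (d := fun _ => p) (Q := fun _ => P) (fun _ => hP) u
    have h3 := rem_eq u l (fun _ => p)
    rw [countP_ms] at h3
    rw [← h2, h3]
    rcases Nat.lt_or_ge p (deg x u) with h | h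
    · have h4 : val S l (fun _ => P) = 0 :=
        val_over u l (d := fun _ => p) (fun _ => hP) (by rw [countP_ms]; exact h)
      rw [h4, mul_zero, mul_zero]
    · rw [Nat.cast_sub h]
  have h2 : (∑ u : Fin 6, ((p : ℝ) - deg x u)) * val S l (fun _ => P) =
      2 * ∑ e : Pr, val S (ends e :: l) (fun _ => P) := by
    rw [Finset.sum_mul, Finset.sum_congr rfl fun u _ => h1 u,
      sum_pairs (fun u w => val S ((u, w) :: l) (fun _ => P)) fun u w => val_swap u w l _]
  have h3 : ∑ u : Fin 6, ((p : ℝ) - deg x u) = 2 * k := by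
    have h5 : ∑ u : Fin 6, (deg x u : ℝ) = ((2 * ∑ e, x e : ℕ) : ℝ) := by
      rw [← sum_deg, Nat.cast_sum]
    rw [Finset.sum_sub_distrib, h5]
    have h4 : ((k + ∑ e, x e : ℕ) : ℝ) = ((3 * p : ℕ) : ℝ) := by rw [hk]
    push_cast at h4 ⊢
    simp only [Finset.sum_const, Finset.card_univ, Fintype.card_fin, nsmul_eq_mul]
    push_cast
    linarith
  rw [h3] at h2
  have h4 : ∀ e : Pr, val S (ends e :: l) (fun _ => P) =
      val S (ms ends (x + Pi.single e 1)).toList (fun _ => P) := fun e =>
    val_perm (ms_single x e) _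
  rw [Finset.sum_congr rfl fun e _ => h4 e] at h2
  linarith

lemma prod_desc (y : Pr → ℕ) (e : Pr) :
    (∏ a, ((y a).descFactorial ((Pi.single e 1 : Pr → ℕ) a) : ℝ)) = y e := by
  rw [Finset.prod_eq_single e]
  · simp
  · intro b _ hb
    simp [Pi.single_apply, hb]
  · intro h
    exact absurd (Finset.mem_univ e) h

theorem exa (hShf : ShfStatement) (_h1 : PvpStatement) (hPvz : PvzStatement) : ExaStatement := by
  intro S p P x k hP
  induction k generalizing x with
  | zero =>
    intro hk
    have e0 : Lf 0 (fun y => Vx S P (x + y)) = Vx S P x := by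
      unfold Lf
      have h1 : Finset.piAntidiag (Finset.univ : Finset Pr) 0 = {0} := by simp
      rw [h1, Finset.sum_singleton]
      simp [ifac]
    rw [e0]
    by_cases hc : Cmp p x
    · unfold Vx
      apply val_eq_pval _ (d := fun _ => p) (fun _ => hP)
      intro u
      rw [rem_eq, countP_ms, hc u, Nat.sub_self]
    · rw [hPvz S p P x hP hc]
      have h2 : ∃ v, p < deg x v := by
        by_contra hcon
        push Not at hcon
        apply hc
        intro v
        by_contra hv
        have h3 : ∑ v : Fin 6, deg x v < ∑ _v : Fin 6, p :=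
          Finset.sum_lt_sum (fun i _ => hcon i) ⟨v, Finset.mem_univ v, lt_of_le_of_ne (hcon v) hv⟩
        rw [sum_deg] at h3
        simp only [Finset.sum_const, Finset.card_univ, Fintype.card_fin, smul_eq_mul] at h3
        omega
      obtain ⟨v, hv⟩ := h2
      exact val_over v _ (d := fun _ => p) (fun _ => hP) (by rw [countP_ms]; exact hv)
  | succ k ih =>
    intro hk
    have h1 := step hP x (k + 1) hk
    have h2 : ∀ e : Pr, val S (ms ends (x + Pi.single e 1)).toList (fun _ => P) =
        Lf (k + 1) fun y => (y e : ℝ) * Vx S P (x + y) := by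
      intro e
      have hs : ∑ a, (Pi.single e 1 : Pr → ℕ) a = 1 := by simp
      rw [ih (x + Pi.single e 1) (by
        simp only [Pi.add_apply]
        rw [Finset.sum_add_distrib, hs]
        omega)]
      have h3 := hShf Pr (Pi.single e 1) k (fun y => Vx S P (x + y))
      rw [hs] at h3
      simp only [prod_desc] at h3
      rw [← h3]
      congr 1
      funext y
      rw [add_assoc]
    rw [Finset.sum_congr rfl fun e _ => h2 e] at h1
    have h3 : ∑ e : Pr, Lf (k + 1) (fun y => (y e : ℝ) * Vx S P (x + y)) =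
        ((k + 1 : ℕ) : ℝ) * Lf (k + 1) fun y => Vx S P (x + y) := by
      unfold Lf
      rw [Finset.sum_comm, Finset.mul_sum]
      refine Finset.sum_congr rfl fun y hy => ?_
      rw [Finset.mem_piAntidiag] at hy
      have h4 : ∑ e : Pr, (y e : ℝ) = ((k + 1 : ℕ) : ℝ) := by
        rw [← Nat.cast_sum]
        exact_mod_cast hy.1
      rw [← h4, Finset.sum_mul]
      refine Finset.sum_congr rfl fun e _ => ?_
      ring
    rw [h3] at h1
    have h5 : ((k + 1 : ℕ) : ℝ) ≠ 0 := by positivity
    exact mul_left_cancel₀ h5 h1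

end A602.S6.H54
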